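import Pool.Agent.R908.AnisoDefs
import Pool.Agent.H914R2.DDefs

/-!
# The null part of the cohomology: definitions
-/

open CategoryTheory AlgebraicGeometry

universe u v

namespace Run7.h43.TF

open Pool.Agent.H914 Pool.Agent.H914.VarClass Pool.Agent.H914.VarClass.Obj
  Pool.Agent.H914.WeilCohomology Pool.Agent.R908

section Alg

variable {K : Type*} [Field K] {A B : Type*} [Ring A] [Algebra K A] [Ring B] [Algebra K B]

/-- The linear map `φ` maps the subspace `M` into the subspace `N`. -/
def MapsInto (φ : A →ₗ[K] B) (M : Submodule K A) (N : Submodule K B) : Prop :=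
  ∀ a ∈ M, φ a ∈ N

/-- The subspace `M` is orthogonal to the set `S`, for the form `(a, b) ↦ tr (a * b)`. -/
def IsPerp (tr : A →ₗ[K] K) (S : Set A) (M : Submodule K A) : Prop :=
  ∀ a ∈ S, ∀ b ∈ M, tr (a * b) = 0

/-- The subspace `M` is totally isotropic for the form `(a, b) ↦ tr (a * b)`. -/
def IsIsotropic (tr : A →ₗ[K] K) (M : Submodule K A) : Prop :=
  IsPerp tr (M : Set A) M

/-- The subspace `M` is compatible with the grading. -/
def IsGraded (gr : ℕ → Submodule K A) (M : Submodule K A) : Prop :=
  M = ⨆ i, M ⊓ gr i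

/-- The radical of the form `(a, b) ↦ tr (a * b)` on the subspace `S`: the elements `b` of `S` with
`tr (a * b) = 0` for all `a` in `S`. -/
def rad (tr : A →ₗ[K] K) (S : Submodule K A) : Submodule K A where
  carrier := {b | b ∈ S ∧ ∀ a ∈ S, tr (a * b) = 0}
  add_mem' := fun hb hc => ⟨S.add_mem hb.1 hc.1, fun a ha => by
    rw [mul_add, map_add, hb.2 a ha, hc.2 a ha, add_zero]⟩
  zero_mem' := ⟨S.zero_mem, fun a _ => by rw [mul_zero, map_zero]⟩
  smul_mem' := fun c b hb => ⟨S.smul_mem c hb.1, fun a ha => by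
    rw [mul_smul_comm, map_smul, hb.2 a ha, smul_zero]⟩

/-- All values of `φ` are orthogonal to `M`, and the property `P` holds if and only if all values of
`φ` lie in `M`. -/
def DecidesOn (tr : B →ₗ[K] K) (M : Submodule K B) (φ : A →ₗ[K] B) (P : Prop) : Prop :=
  IsPerp tr (Set.range φ) M ∧ (P ↔ ∀ x, φ x ∈ M)

end Alg

variable {k : Type u} [Field k] {𝒱 : VarClass k} {ops : CycleOps 𝒱}

/-- The class `γ` on `V` is numerically equivalent to zero: its intersection numbers with all
algebraic classes are zero. -/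
def NumZero (W : WeilCohomology.{u, v} ops) (V : 𝒱.Obj) (γ : W.H V) : Prop :=
  ∀ p : ℕ, ∀ δ ∈ spanCycles W V p, W.tr V (γ * δ) = 0

/-- The families of subspaces `M Y` of `H(Y)`, for all varieties `Y` in the class. -/
abbrev Fam (W : WeilCohomology.{u, v} ops) := ∀ Y : 𝒱.Obj, Submodule W.K (W.H Y)

/-- The subspace of `H(Y)` generated by `𝒳`: the sum of the images of all operators `H(X) → H(Y)`
given by algebraic cycles on `X × Y` (of any codimension), for all `X ∈ 𝒳`. -/
def gen (W : WeilCohomology.{u, v} ops) (𝒳 : Set 𝒱.Obj) : Fam W := fun Y =>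
  Submodule.span W.K {y | ∃ X ∈ 𝒳, ∃ p : ℕ, ∃ γ ∈ spanCycles W (X.prod Y) p, ∃ x, W.corr γ x = y}

/-- The radical of the cup product form on the subspace of `H(Y)` generated by `𝒳`. -/
def radical (W : WeilCohomology.{u, v} ops) (𝒳 : Set 𝒱.Obj) : Fam W := fun Y =>
  rad (W.tr Y) (gen W 𝒳 Y)

/-- The operators `H(Y) → H(Z)` given by the `K`-linear combinations of algebraic cycles on `Y × Z`
(of any codimension) map `M Y` into `M Z`. -/
def StableCorr (W : WeilCohomology.{u, v} ops) (M : Fam W) : Prop :=
  ∀ (Y Z : 𝒱.Obj) (p : ℕ), ∀ γ ∈ spanCycles W (Y.prod Z) p, MapsInto (W.corr γ) (M Y) (M Z)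

/-- The pull-backs map `M Z` into `M Y`. -/
def StablePull (W : WeilCohomology.{u, v} ops) (M : Fam W) : Prop :=
  ∀ (Y Z : 𝒱.Obj) (f : Y ⟶ Z), MapsInto (W.map f).toLinearMap (M Z) (M Y)

/-- The push-forwards map `M Y` into `M Z`. -/
def StablePush (W : WeilCohomology.{u, v} ops) (M : Fam W) : Prop :=
  ∀ (Y Z : 𝒱.Obj) (f : Y ⟶ Z), MapsInto (W.push f) (M Y) (M Z)

/-- The cup products with classes of algebraic cycles (and their `K`-linear combinations) map `M Y`
into itself. -/
def StableMul (W : WeilCohomology.{u, v} ops) (M : Fam W) : Prop :=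
  ∀ (Y : 𝒱.Obj) (p : ℕ), ∀ c ∈ spanCycles W Y p, MapsInto (LinearMap.mulLeft W.K c) (M Y) (M Y)

/-- The subspaces `M Y` are orthogonal to the classes of algebraic cycles. -/
def PerpCycles (W : WeilCohomology.{u, v} ops) (M : Fam W) : Prop :=
  ∀ (Y : 𝒱.Obj) (p : ℕ), IsPerp (W.tr Y) (spanCycles W Y p) (M Y)

/-- The symmetries of the Weil cohomology theory preserve the subspaces `M Y`. -/
def StableSymm (W : WeilCohomology.{u, v} ops) (M : Fam W) : Prop :=
  ∀ (S : Symmetry W) (Y : 𝒱.Obj), MapsInto (S.σ Y).toLinearMap (M Y) (M Y)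

/-- A family of subspaces `M Y` of `H(Y)`, for all varieties `Y` in the class, such that
* the operators `H(Y) → H(Z)` given by the `K`-linear combinations of algebraic cycles on `Y × Z`
  (of any codimension) map `M Y` into `M Z`; the same holds for the pull-backs, the push-forwards and
  the cup products with `K`-linear combinations of classes of algebraic cycles;
* `M Y` is orthogonal to the classes of algebraic cycles;
* the symmetries of the Weil cohomology theory preserve `M Y`;
* `M Y` is compatible with the grading and totally isotropic for the cup product form. -/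
structure IsNullFamily (W : WeilCohomology.{u, v} ops) (M : Fam W) : Prop where
  corr : StableCorr W M
  pull : StablePull W M
  push : StablePush W M
  mul : StableMul W M
  perp : PerpCycles W M
  symm : StableSymm W M
  graded : ∀ Y : 𝒱.Obj, IsGraded (W.gr Y) (M Y)
  isotropic : ∀ Y : 𝒱.Obj, IsIsotropic (W.tr Y) (M Y)

/-- The subspace `M` of `H(Y)` decides on the numerical triviality of cycles on `X × Y`: for all
`K`-linear combinations `γ` of classes of algebraic cycles of codimension `p` on `X × Y`, all values of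
the operator `H(X) → H(Y)` given by `γ` are orthogonal to `M`, and `γ` is numerically equivalent to
zero if and only if all these values lie in `M`. -/
def Decides (W : WeilCohomology.{u, v} ops) (X Y : 𝒱.Obj) (M : Submodule W.K (W.H Y)) : Prop :=
  ∀ p : ℕ, ∀ γ ∈ spanCycles W (X.prod Y) p,
    DecidesOn (W.tr Y) M (W.corr γ) (NumZero W (X.prod Y) γ)

/-- The members of the family decide on the numerical triviality of cycles on `X × Y`, for all
`X ∈ 𝒳` and all varieties `Y` in the class. -/
def DecidesFor (W : WeilCohomology.{u, v} ops) (𝒳 : Set 𝒱.Obj) (M : Fam W) : Prop :=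
  ∀ X ∈ 𝒳, ∀ Y, Decides W X Y (M Y)

/-- The conjecture D holds for `X × Y` for all `X ∈ 𝒳`. -/
def DTimes (W : WeilCohomology.{u, v} ops) (𝒳 : Set 𝒱.Obj) (Y : 𝒱.Obj) : Prop :=
  ∀ X ∈ 𝒳, HomEqNum W (X.prod Y)

/-- For every variety `Y`, the subspace `M Y` is contained in every subspace of `H(Y)` which decides on
the numerical triviality of cycles on `X × Y`, for all `X ∈ 𝒳`. -/
def IsSmallest (W : WeilCohomology.{u, v} ops) (𝒳 : Set 𝒱.Obj) (M : Fam W) : Prop :=
  ∀ (Y : 𝒱.Obj) (M' : Submodule W.K (W.H Y)), (∀ X ∈ 𝒳, Decides W X Y M') → M Y ≤ M'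

end Run7.h43.TF
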