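import Pool.Agent.Run7.h43.TF.Rad

/-!
# The conjecture D for products of two varieties: the theorem
-/

open CategoryTheory AlgebraicGeometry

universe u v

namespace Run7.h43.TF

open Pool.Agent.H914 Pool.Agent.H914.VarClass Pool.Agent.R908

theorem nullPart {k : Type u} [Field k] {𝒱 : VarClass k} {ops : CycleOps 𝒱}
    (W : WeilCohomology.{u, v} ops) (𝒳 : Set 𝒱.Obj) (h𝒳 : ∀ X ∈ 𝒳, DTimes W 𝒳 X) :
    (∀ Y, DTimes W 𝒳 Y ↔ radical W 𝒳 Y = ⊥) ∧ DecidesFor W 𝒳 (radical W 𝒳) ∧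
      IsNullFamily W (radical W 𝒳) ∧ IsSmallest W 𝒳 (radical W 𝒳) := by
  have h : ∀ X ∈ 𝒳, ∀ X' ∈ 𝒳, HomEqNum W (X.prod X') := fun X hX X' hX' => h𝒳 X' hX' X hX
  have h1 : radical W 𝒳 = null W 𝒳 := by
    funext Y
    exact rad_eq_null h Y
  rw [h1]
  refine ⟨fun Y => null_eq_bot_iff h Y, fun X hX Y => decides h hX Y, null_isNullFamily h, ?_⟩
  intro Y M' h'
  exact null_le fun X hX p γ hγ hn x => ((h' X hX p γ hγ).2.1 hn) x

end Run7.h43.TF
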