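import Pool.Agent.Run7.h43.TF.Defs
import Pool.Agent.R908.MainK

/-!
# The null part of the cohomology: proofs
-/

open CategoryTheory AlgebraicGeometry

universe u v

namespace Run7.h43.TF

open Pool.Agent.H914 Pool.Agent.H914.VarClass Pool.Agent.H914.VarClass.Obj
  Pool.Agent.H914.WeilCohomology Pool.Agent.R908

variable {k : Type u} [Field k] {𝒱 : VarClass k} {ops : CycleOps 𝒱}
  {W : WeilCohomology.{u, v} ops} {X Y Z : 𝒱.Obj}

lemma span_neg {j : ℤ} (hj : j < 0) {x : W.H X} (hx : x ∈ spanCycles W X j) : x = 0 := by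
  induction hx using Submodule.span_induction with
  | mem x hx => obtain ⟨p, hp, _⟩ := hx; omega
  | zero => rfl
  | add x y _ _ hx hy => rw [hx, hy, add_zero]
  | smul c x _ hx => rw [hx, smul_zero]

lemma span_gr' {j : ℤ} {x : W.H X} (hx : x ∈ spanCycles W X j) :
    ∃ q : ℕ, x ∈ W.gr X (2 * q) := by
  by_cases hj : 0 ≤ j
  · lift j to ℕ using hj
    exact ⟨j, span_gr hx⟩
  · exact ⟨0, by rw [span_neg (by omega) hx]; exact Submodule.zero_mem _⟩

lemma numZero_iff {γ : W.H X} : NumZero W X γ ↔ NumTriv W X γ := by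
  constructor
  · intro h j g hg
    by_cases hj : 0 ≤ j
    · lift j to ℕ using hj
      exact h j g hg
    · rw [span_neg (by omega) hg, mul_zero, map_zero]
  · intro h p δ hδ
    exact h p δ hδ

/-- Composition with a numerically trivial class. -/
lemma comp_num {i j : ℤ} {γ : W.H (X.prod Y)} (hγ : γ ∈ spanCycles W (X.prod Y) i)
    {δ : W.H (Y.prod Z)} (hδ : δ ∈ spanCycles W (Y.prod Z) j)
    (hn : NumTriv W _ γ ∨ NumTriv W _ δ) :
    ∃ l : ℤ, ∃ ε ∈ spanCycles W (X.prod Z) l, NumTriv W _ ε ∧ W.corr ε = W.corr δ ∘ₗ W.corr γ := by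
  obtain ⟨q, hq⟩ := span_gr' hδ
  refine ⟨_, W.push (p13 X Y Z) (W.map (p12 X Y Z) γ * W.map (p23 X Y Z) δ),
    KOp.map_span (KOp.pushHom _) (span_mul (span_map _ hγ) (span_map _ hδ)), ?_, W.corr_comp γ hq⟩
  apply NumTriv.op (KOp.pushHom _)
  rcases hn with h | h
  · rw [span_comm (span_map _ hγ)]
    exact NumTriv.mul_left (span_map _ hδ) (NumTriv.op (KOp.mapHom _) h)
  · exact NumTriv.mul_left (span_map _ hγ) (NumTriv.op (KOp.mapHom _) h)

/-- The transposed class. -/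
lemma adj_num {i : ℤ} {γ : W.H (X.prod Y)} (hγ : γ ∈ spanCycles W (X.prod Y) i) :
    ∃ δ ∈ spanCycles W (Y.prod X) i, (NumTriv W _ γ → NumTriv W _ δ) ∧
      ∀ a b, W.tr Y (W.corr γ a * b) = W.tr X (a * W.corr δ b) := by
  obtain ⟨q, hq⟩ := span_gr' hγ
  exact ⟨W.map (swap Y X) γ, span_map _ hγ, fun h => NumTriv.op (KOp.mapHom _) h,
    fun a b => tr_corr_swap hq a b⟩

lemma zero_of_homEqNum (hD : HomEqNum W X) {i : ℤ} {γ : W.H X} (hγ : γ ∈ spanCycles W X i)
    (hn : NumTriv W X γ) : γ = 0 := by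
  by_cases hi : 0 ≤ i
  · lift i to ℕ using hi
    by_cases h : i ≤ X.dim
    · refine cNondeg hD (l := i) (l' := X.dim - i) (by omega) hγ ?_
      intro b hb
      rw [bil_apply]
      exact hn _ _ (alg_mem_span hb)
    · have h1 := span_gr hγ
      rw [W.gr_eq_bot _ _ (by omega)] at h1
      exact (Submodule.mem_bot _).1 h1
  · exact span_neg (by omega) hγ

/-- The subspace generated by the values of numerically trivial classes. -/
noncomputable def null (W : WeilCohomology.{u, v} ops) (𝒳 : Set 𝒱.Obj) (Y : 𝒱.Obj) :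
    Submodule W.K (W.H Y) :=
  Submodule.span W.K {y | ∃ X ∈ 𝒳, ∃ i : ℤ, ∃ γ ∈ spanCycles W (X.prod Y) i,
    NumTriv W _ γ ∧ ∃ x, W.corr γ x = y}

variable {𝒳 : Set 𝒱.Obj}

lemma null_gen (hX : X ∈ 𝒳) {i : ℤ} {γ : W.H (X.prod Y)} (hγ : γ ∈ spanCycles W (X.prod Y) i)
    (hn : NumTriv W _ γ) (x : W.H X) : W.corr γ x ∈ null W 𝒳 Y :=
  Submodule.subset_span ⟨X, hX, i, γ, hγ, hn, x, rfl⟩

lemma orth (h𝒳 : ∀ X ∈ 𝒳, ∀ X' ∈ 𝒳, HomEqNum W (X.prod X')) (hX : X ∈ 𝒳) {i : ℤ}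
    {γ : W.H (X.prod Y)} (hγ : γ ∈ spanCycles W (X.prod Y) i) (x : W.H X) {b : W.H Y}
    (hb : b ∈ null W 𝒳 Y) : W.tr Y (W.corr γ x * b) = 0 := by
  induction hb using Submodule.span_induction with
  | mem b hb =>
    obtain ⟨X', hX', j, δ, hδ, hn, x', rfl⟩ := hb
    obtain ⟨γ', hγ', -, hadj⟩ := adj_num hγ
    obtain ⟨l, ε, hε, hεn, hc⟩ := comp_num hδ hγ' (Or.inl hn)
    have h0 := zero_of_homEqNum (h𝒳 X' hX' X hX) hε hεn
    rw [hadj]
    have h1 : W.corr γ' (W.corr δ x') = W.corr ε x' := by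
      rw [hc]; rfl
    rw [h1, h0, corr_zero, LinearMap.zero_apply, mul_zero, map_zero]
  | zero => rw [mul_zero, map_zero]
  | add b b' _ _ hb hb' => rw [mul_add, map_add, hb, hb', add_zero]
  | smul c b _ hb => rw [mul_smul_comm, map_smul, hb, smul_zero]

lemma null_isotropic (h𝒳 : ∀ X ∈ 𝒳, ∀ X' ∈ 𝒳, HomEqNum W (X.prod X')) {a b : W.H Y}
    (ha : a ∈ null W 𝒳 Y) (hb : b ∈ null W 𝒳 Y) : W.tr Y (a * b) = 0 := by
  induction ha using Submodule.span_induction with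
  | mem a ha =>
    obtain ⟨X, hX, i, γ, hγ, -, x, rfl⟩ := ha
    exact orth h𝒳 hX hγ x hb
  | zero => rw [zero_mul, map_zero]
  | add a a' _ _ ha ha' => rw [add_mul, map_add, ha, ha', add_zero]
  | smul c a _ ha => rw [smul_mul_assoc, map_smul, ha, smul_zero]

lemma null_corr {j : ℤ} {δ : W.H (Y.prod Z)} (hδ : δ ∈ spanCycles W (Y.prod Z) j) {a : W.H Y}
    (ha : a ∈ null W 𝒳 Y) : W.corr δ a ∈ null W 𝒳 Z := by
  induction ha using Submodule.span_induction with
  | mem a ha =>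
    obtain ⟨X, hX, i, γ, hγ, hn, x, rfl⟩ := ha
    obtain ⟨l, ε, hε, hεn, hc⟩ := comp_num hγ hδ (Or.inl hn)
    have h1 : W.corr δ (W.corr γ x) = W.corr ε x := by
      rw [hc]; rfl
    rw [h1]
    exact null_gen hX hε hεn x
  | zero => rw [map_zero]; exact Submodule.zero_mem _
  | add a a' _ _ ha ha' => rw [map_add]; exact Submodule.add_mem _ ha ha'
  | smul c a _ ha => rw [map_smul]; exact Submodule.smul_mem _ _ ha

lemma null_KOp {d : ℤ} {φ : W.H Y →ₗ[W.K] W.H Z} (hφ : φ ∈ KOp W Y Z d) {a : W.H Y}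
    (ha : a ∈ null W 𝒳 Y) : φ a ∈ null W 𝒳 Z := by
  obtain ⟨γ, hγ, rfl⟩ := mem_KOp_iff.1 hφ
  exact null_corr hγ ha

lemma mulLeft_mem {j : ℤ} {c : W.H Y} (hc : c ∈ spanCycles W Y j) :
    LinearMap.mulLeft W.K c ∈ KOp W Y Y j := by
  induction hc using Submodule.span_induction with
  | mem c hc =>
    obtain ⟨p, hp, z, hz, rfl⟩ := hc
    have h1 : LinearMap.mulLeft W.K (W.cl Y z) =
        W.corr (W.cl (Y.prod Y) (ops.push (diag Y) z)) := by
      apply LinearMap.ext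
      intro a
      have e1 : diag Y ≫ fst Y Y = 𝟙 Y := Obj.lift_fst _ _
      have e2 : diag Y ≫ snd Y Y = 𝟙 Y := Obj.lift_snd _ _
      rw [LinearMap.mulLeft_apply, corr_apply, W.cl_push, ← W.push_mul, ← W.map_comp, e1,
        ← W.push_comp, e2, W.map_id, W.push_id]
    rw [h1]
    exact KOp.gen (p := p + Y.dim) (by push_cast; rw [hp]; ring)
      (ops.push_mem _ hz (by rw [dim_prod]; ring))
  | zero =>
    rw [LinearMap.mulLeft_zero_eq_zero]
    exact Submodule.zero_mem _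
  | add x y _ _ hx hy =>
    have : LinearMap.mulLeft W.K (x + y) = LinearMap.mulLeft W.K x + LinearMap.mulLeft W.K y := by
      apply LinearMap.ext; intro a; simp [add_mul]
    rw [this]; exact Submodule.add_mem _ hx hy
  | smul q x _ hx =>
    have : LinearMap.mulLeft W.K (q • x) = q • LinearMap.mulLeft W.K x := by
      apply LinearMap.ext; intro a; simp
    rw [this]; exact Submodule.smul_mem _ _ hx

lemma push_symm (S : Symmetry W) (u : W.H (X.prod Y)) :
    W.push (snd X Y) (S.σ _ u) = (S.c (X.prod Y) * (S.c Y)⁻¹) • S.σ Y (W.push (snd X Y) u) := by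
  apply W.tr_ext
  intro b
  obtain ⟨b', rfl⟩ := (S.σ Y).surjective b
  rw [W.tr_push, ← S.snd, ← map_mul (S.σ (X.prod Y)), S.tr, smul_mul_assoc, map_smul,
    ← map_mul (S.σ Y), S.tr, W.tr_push, smul_eq_mul]
  field_simp [S.c_ne_zero Y]

lemma null_symm (S : Symmetry W) {a : W.H Y} (ha : a ∈ null W 𝒳 Y) : S.σ Y a ∈ null W 𝒳 Y := by
  induction ha using Submodule.span_induction with
  | mem a ha =>
    obtain ⟨X, hX, i, γ, hγ, hn, x, rfl⟩ := ha
    have h1 : W.corr (S.σ _ γ) (S.σ X x) =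
        (S.c (X.prod Y) * (S.c Y)⁻¹) • S.σ Y (W.corr γ x) := by
      rw [corr_apply, corr_apply, ← S.fst, ← map_mul (S.σ (X.prod Y)), push_symm]
    have h2 : S.σ Y (W.corr γ x) =
        (S.c (X.prod Y) * (S.c Y)⁻¹)⁻¹ • W.corr (S.σ _ γ) (S.σ X x) := by
      rw [h1, smul_smul, inv_mul_cancel₀, one_smul]
      exact mul_ne_zero (S.c_ne_zero _) (inv_ne_zero (S.c_ne_zero _))
    rw [h2]
    exact Submodule.smul_mem _ _ (null_gen hX (S.span hγ) (S.num hn) _)
  | zero => rw [map_zero]; exact Submodule.zero_mem _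
  | add a a' _ _ ha ha' => rw [map_add]; exact Submodule.add_mem _ ha ha'
  | smul c a _ ha => rw [map_smul]; exact Submodule.smul_mem _ _ ha

/-- The values on homogeneous classes. -/
lemma null_gen_mem (hX : X ∈ 𝒳) {i : ℤ} {γ : W.H (X.prod Y)} (hγ : γ ∈ spanCycles W (X.prod Y) i)
    (hn : NumTriv W _ γ) (x : W.H X) : W.corr γ x ∈ ⨆ l, null W 𝒳 Y ⊓ W.gr Y l := by
  have hK : W.corr γ ∈ KOp W X Y (i - X.dim) := by
    rw [mem_KOp_iff]
    exact ⟨γ, by rw [show (X.dim : ℤ) + (i - X.dim) = i by ring]; exact hγ, rfl⟩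
  refine gr_induction (W.isInternal X)
    (p := fun x => W.corr γ x ∈ ⨆ l, null W 𝒳 Y ⊓ W.gr Y l) ?_ ?_ x
  · intro l a ha
    have h1 := KOp.isHom hK (l : ℤ) a (by rw [grZ_natCast]; exact ha)
    by_cases hneg : (l : ℤ) + 2 * (i - X.dim) < 0
    · rw [grZ_of_neg hneg] at h1
      rw [(Submodule.mem_bot _).1 h1]
      exact Submodule.zero_mem _
    · obtain ⟨m, hm⟩ := Int.eq_ofNat_of_zero_le (not_lt.1 hneg)
      rw [hm, grZ_natCast] at h1
      exact Submodule.mem_iSup_of_mem m ⟨null_gen hX hγ hn a, h1⟩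
  · intro a b ha hb
    rw [map_add]
    exact Submodule.add_mem _ ha hb

lemma null_graded (𝒳 : Set 𝒱.Obj) (Y : 𝒱.Obj) : IsGraded (W.gr Y) (null W 𝒳 Y) := by
  apply le_antisymm
  · apply Submodule.span_le.2
    rintro y ⟨X, hX, i, γ, hγ, hn, x, rfl⟩
    exact null_gen_mem hX hγ hn x
  · exact iSup_le fun l => inf_le_left

lemma homEqNum_left {i : ℤ} (hD : HomEqNum W (X.prod X)) {x : W.H X} (hx : x ∈ spanCycles W X i)
    (hn : NumTriv W X x) : x = 0 := by
  have h1 := zero_of_homEqNum hD (span_map (fst X X) hx) (NumTriv.op (KOp.mapHom (fst X X)) hn)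
  have e1 : diag X ≫ fst X X = 𝟙 X := Obj.lift_fst _ _
  have h2 : W.map (diag X) (W.map (fst X X) x) = x := by
    rw [← W.map_comp, e1, W.map_id]
  rw [← h2, h1, map_zero]

/-- The null part is orthogonal to the algebraic classes. -/
lemma null_perp (h𝒳 : ∀ X ∈ 𝒳, HomEqNum W (X.prod X)) {j : ℤ} {c : W.H Y}
    (hc : c ∈ spanCycles W Y j) {a : W.H Y} (ha : a ∈ null W 𝒳 Y) : W.tr Y (c * a) = 0 := by
  induction ha using Submodule.span_induction with
  | mem a ha =>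
    obtain ⟨X, hX, i, γ, hγ, hn, x, rfl⟩ := ha
    obtain ⟨δ, hδ, hδn, hadj⟩ := adj_num hγ
    have hK : W.corr δ ∈ KOp W Y X (i - Y.dim) := by
      rw [mem_KOp_iff]
      exact ⟨δ, by rw [show (Y.dim : ℤ) + (i - Y.dim) = i by ring]; exact hδ, rfl⟩
    have h1 : W.corr δ c = 0 := by
      refine homEqNum_left (h𝒳 X hX) (KOp.map_span hK hc) ?_
      rw [corr_apply, span_comm hδ]
      exact NumTriv.op (KOp.pushHom _) (NumTriv.mul_left (span_map _ hc) (hδn hn))
    rw [span_comm hc, hadj, h1, mul_zero, map_zero]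
  | zero => rw [mul_zero, map_zero]
  | add b b' _ _ hb hb' => rw [mul_add, map_add, hb, hb', add_zero]
  | smul c' b _ hb => rw [mul_smul_comm, map_smul, hb, smul_zero]

lemma null_isNullFamily (h𝒳 : ∀ X ∈ 𝒳, ∀ X' ∈ 𝒳, HomEqNum W (X.prod X')) :
    IsNullFamily W (null W 𝒳) where
  corr _ _ _ _ hγ _ ha := null_corr hγ ha
  pull _ _ f _ ha := null_KOp (KOp.mapHom f) ha
  push _ _ f _ ha := null_KOp (KOp.pushHom f) ha
  mul _ _ _ hc _ ha := null_KOp (mulLeft_mem hc) ha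
  perp _ _ _ hc _ ha := null_perp (fun X hX => h𝒳 X hX X hX) hc ha
  symm S _ _ ha := null_symm S ha
  graded Y := null_graded 𝒳 Y
  isotropic _ _ ha _ hb := null_isotropic h𝒳 ha hb

lemma null_le {M : Submodule W.K (W.H Y)} (h : ∀ X ∈ 𝒳, ∀ p : ℕ, ∀ γ ∈ spanCycles W (X.prod Y) p,
    NumZero W (X.prod Y) γ → ∀ x, W.corr γ x ∈ M) : null W 𝒳 Y ≤ M := by
  apply Submodule.span_le.2
  rintro y ⟨X, hX, i, γ, hγ, hn, x, rfl⟩
  by_cases hi : 0 ≤ i
  · lift i to ℕ using hi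
    exact h X hX i γ hγ (numZero_iff.2 hn) x
  · rw [span_neg (by omega) hγ, corr_zero, LinearMap.zero_apply]
    exact Submodule.zero_mem _

/-- Slices are direct images. -/
lemma sl_mulLeft (a : W.H X) (γ : W.H (X.prod Y)) :
    sl W (W.tr X ∘ₗ LinearMap.mulLeft W.K a) γ = W.push (snd X Y) (W.map (fst X Y) a * γ) := by
  have h : sl W (W.tr X ∘ₗ LinearMap.mulLeft W.K a) =
      W.push (snd X Y) ∘ₗ LinearMap.mulLeft W.K (W.map (fst X Y) a) := by
    apply ext_kunneth_lin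
    intro u v
    rw [sl_tmul, LinearMap.comp_apply, LinearMap.comp_apply, LinearMap.mulLeft_apply,
      LinearMap.mulLeft_apply, ← mul_assoc, ← map_mul, push_snd]
  exact congrArg (fun F => F γ) h

lemma exists_dual (f : W.H X →ₗ[W.K] W.K) : ∃ a : W.H X, f = W.tr X ∘ₗ LinearMap.mulLeft W.K a := by
  set T : W.H X →ₗ[W.K] Module.Dual W.K (W.H X) :=
    { toFun := fun a => W.tr X ∘ₗ LinearMap.mulLeft W.K a
      map_add' := fun a b => by
        apply LinearMap.ext; intro c; simp [add_mul]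
      map_smul' := fun r a => by
        apply LinearMap.ext; intro c; simp } with hT
  have hinj : Function.Injective T := by
    intro a b hab
    apply W.tr_ext
    intro c
    exact congrArg (fun F => F c) hab
  have hsurj : Function.Surjective T :=
    (LinearMap.injective_iff_surjective_of_finrank_eq_finrank (Subspace.dual_finrank_eq).symm).1 hinj
  obtain ⟨a, ha⟩ := hsurj f
  exact ⟨a, ha.symm⟩

lemma sl_mem {M : Submodule W.K (W.H Y)} {i : ℤ} {γ : W.H (X.prod Y)}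
    (hγ : γ ∈ spanCycles W (X.prod Y) i) (h : ∀ x, W.corr γ x ∈ M) (f : W.H X →ₗ[W.K] W.K) :
    sl W f γ ∈ M := by
  obtain ⟨a, rfl⟩ := exists_dual f
  rw [sl_mulLeft, ← span_comm hγ, ← corr_apply]
  exact h a

lemma kunneth_sum (y : W.H (X.prod Y)) : y = ∑ i, W.map (fst X Y) (Module.finBasis W.K (W.H X) i) *
    W.map (snd X Y) (sl W ((Module.finBasis W.K (W.H X)).coord i) y) := by
  set b := Module.finBasis W.K (W.H X) with hb
  have key : (LinearMap.id : W.H (X.prod Y) →ₗ[W.K] W.H (X.prod Y)) =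
      ∑ i, LinearMap.mulLeft W.K (W.map (fst X Y) (b i)) ∘ₗ (W.map (snd X Y)).toLinearMap ∘ₗ
        sl W (b.coord i) := by
    apply ext_kunneth_lin
    intro a c
    rw [LinearMap.sum_apply, LinearMap.id_apply]
    have h1 : ∀ i, (LinearMap.mulLeft W.K (W.map (fst X Y) (b i)) ∘ₗ
        (W.map (snd X Y)).toLinearMap ∘ₗ sl W (b.coord i))
        (W.map (fst X Y) a * W.map (snd X Y) c) =
        W.map (fst X Y) (b.coord i a • b i) * W.map (snd X Y) c := by
      intro i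
      rw [LinearMap.comp_apply, LinearMap.comp_apply, sl_tmul, LinearMap.mulLeft_apply,
        AlgHom.toLinearMap_apply, map_smul, map_smul, mul_smul_comm, smul_mul_assoc]
    rw [Finset.sum_congr rfl (fun i _ => h1 i), ← Finset.sum_mul, ← map_sum]
    congr 2
    exact (b.sum_repr a).symm
  have h2 := congrArg (fun F => F y) key
  beta_reduce at h2
  rw [LinearMap.sum_apply, LinearMap.id_apply] at h2
  exact h2

/-- Orthogonal values. -/
lemma tr_mul_of_values {M : Submodule W.K (W.H Y)} {i : ℤ} {γ δ : W.H (X.prod Y)}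
    (hγ : γ ∈ spanCycles W (X.prod Y) i) (h : ∀ x, W.corr γ x ∈ M)
    (hδ : ∀ x, ∀ b ∈ M, W.tr Y (W.corr δ x * b) = 0) :
    W.tr (X.prod Y) (γ * δ) = 0 := by
  rw [span_comm hγ]
  conv_lhs => rw [kunneth_sum γ]
  rw [Finset.mul_sum, map_sum]
  apply Finset.sum_eq_zero
  intro l _
  rw [← mul_assoc, ← W.tr_push, ← corr_apply]
  exact hδ _ _ (sl_mem hγ h _)

lemma decides (h𝒳 : ∀ X ∈ 𝒳, ∀ X' ∈ 𝒳, HomEqNum W (X.prod X')) (hX : X ∈ 𝒳) (Y : 𝒱.Obj) :
    Decides W X Y (null W 𝒳 Y) := by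
  intro p γ hγ
  refine ⟨?_, ?_, ?_⟩
  · rintro _ ⟨x, rfl⟩ b hb
    exact orth h𝒳 hX hγ x hb
  · intro h x
    exact null_gen hX hγ (numZero_iff.1 h) x
  · intro h q δ hδ
    exact tr_mul_of_values hγ h (fun x b hb => orth h𝒳 hX hδ x hb)

lemma null_eq_bot_iff (h𝒳 : ∀ X ∈ 𝒳, ∀ X' ∈ 𝒳, HomEqNum W (X.prod X')) (Y : 𝒱.Obj) :
    (∀ X ∈ 𝒳, HomEqNum W (X.prod Y)) ↔ null W 𝒳 Y = ⊥ := by
  constructor
  · intro h
    rw [eq_bot_iff]
    apply null_le
    intro X hX p γ hγ hn x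
    rw [zero_of_homEqNum (h X hX) hγ (numZero_iff.1 hn), corr_zero, LinearMap.zero_apply]
    exact Submodule.zero_mem _
  · intro h X hX j hj z hz hnum
    have h1 := numTriv_cl (W := W) hj hz hnum
    apply corr_inj
    apply LinearMap.ext
    intro x
    have h2 := null_gen hX (i := j) (Submodule.subset_span ⟨j, rfl, z, hz, rfl⟩) h1 x
    rw [h] at h2
    exact (Submodule.mem_bot _).1 h2

end Run7.h43.TF
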