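import Mathlib

/-!
# Algebras of endomorphisms with a nondegenerate twisted trace form are semisimple
-/

namespace Run7.h43.TF

variable {K : Type*} [Field K] {V : Type*} [AddCommGroup V] [Module K V] [Module.Finite K V]

lemma trace_eq_zero_of_nil {T : Module.End K V} (hT : IsNilpotent T) :
    LinearMap.trace K V T = 0 :=
  (LinearMap.isNilpotent_trace_of_isNilpotent hT).eq_zero

/-- Left ideals have right identities. -/
theorem exists_right_identity (E : Subalgebra K (Module.End K V)) (P : Module.End K V)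
    (hP : ∀ T ∈ E, Commute P T)
    (hnd : ∀ T ∈ E, (∀ S ∈ E, LinearMap.trace K V (P * (S * T)) = 0) → T = 0)
    (J : Ideal E) : ∃ f ∈ J, ∀ j ∈ J, j * f = j := by
  haveI : Module.Finite K E := inferInstance
  haveI : IsArtinianRing E := IsArtinianRing.of_finite K E
  have hss : IsSemisimpleRing E := by
    rw [IsArtinianRing.isSemisimpleRing_iff_jacobson, eq_bot_iff]
    intro T hT
    rw [Submodule.mem_bot]
    apply Subtype.ext
    apply hnd _ T.2
    intro S hS
    have h1 : (⟨S, hS⟩ : E) * T ∈ Ring.jacobson E := Ideal.mul_mem_left _ _ hT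
    obtain ⟨n, hn⟩ := (IsSemiprimaryRing.isNilpotent : IsNilpotent (Ring.jacobson E))
    have h2 : ((⟨S, hS⟩ : E) * T) ^ n = 0 := by
      have h3 := Ideal.pow_mem_pow h1 n
      rw [hn] at h3
      exact (Submodule.mem_bot _).1 h3
    have h4 : (S * (T : Module.End K V)) ^ n = 0 := by
      have := congrArg (fun x : E => (x : Module.End K V)) h2
      simpa using this
    apply trace_eq_zero_of_nil
    refine ⟨n, ?_⟩
    have hc : Commute P (S * (T : Module.End K V)) := (hP S hS).mul_right (hP _ T.2)
    rw [hc.mul_pow, h4, mul_zero]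
  obtain ⟨J', hJ'⟩ := exists_isCompl J
  have h1 : (1 : E) ∈ J ⊔ J' := by rw [hJ'.sup_eq_top]; trivial
  obtain ⟨f, hf, f', hf', hff⟩ := Submodule.mem_sup.1 h1
  refine ⟨f, hf, fun j hj => ?_⟩
  have h2 : j - j * f = j * f' := by
    have : j = j * (f + f') := by rw [hff, mul_one]
    conv_lhs => rw [this]
    rw [mul_add]
    have : (j * f + j * f') * f = j * f := by
      rw [← mul_add, hff, mul_one]
    rw [this]
    abel
  have h3 : j - j * f ∈ J ⊓ J' := by
    refine ⟨J.sub_mem hj (Ideal.mul_mem_left _ _ hf), ?_⟩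
    rw [h2]
    exact Ideal.mul_mem_left _ _ hf'
  rw [hJ'.inf_eq_bot] at h3
  exact (sub_eq_zero.1 ((Submodule.mem_bot _).1 h3)).symm

end Run7.h43.TF
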