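import Pool.Agent.Run7.h43.TF.Main
import Pool.Agent.Run7.h43.TF.SemiAlg

/-!
# The radical of the form on the subspace generated by a set of varieties
-/

open CategoryTheory AlgebraicGeometry

universe u v

namespace Run7.h43.TF

open Pool.Agent.H914 Pool.Agent.H914.VarClass Pool.Agent.H914.VarClass.Obj
  Pool.Agent.H914.WeilCohomology Pool.Agent.R908

variable {k : Type u} [Field k] {𝒱 : VarClass k} {ops : CycleOps 𝒱}
  {W : WeilCohomology.{u, v} ops} {X Y Z : 𝒱.Obj}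

/-! ### Algebraic operators of mixed degrees -/

/-- The `K`-linear combinations of algebraic correspondences of all degrees. -/
noncomputable def AOp (W : WeilCohomology.{u, v} ops) (X Y : 𝒱.Obj) :
    Submodule W.K (W.H X →ₗ[W.K] W.H Y) := ⨆ d : ℤ, KOp W X Y d

lemma aop_of {d : ℤ} {φ : W.H X →ₗ[W.K] W.H Y} (hφ : φ ∈ KOp W X Y d) : φ ∈ AOp W X Y :=
  Submodule.mem_iSup_of_mem d hφ

lemma aop_ind {p : (W.H X →ₗ[W.K] W.H Y) → Prop} {φ : W.H X →ₗ[W.K] W.H Y}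
    (hφ : φ ∈ AOp W X Y) (h1 : ∀ d, ∀ φ ∈ KOp W X Y d, p φ) (h0 : p 0)
    (h2 : ∀ φ ψ, p φ → p ψ → p (φ + ψ)) : p φ :=
  Submodule.iSup_induction _ (motive := p) hφ h1 h0 h2

lemma aop_comp {φ : W.H X →ₗ[W.K] W.H Y} {ψ : W.H Y →ₗ[W.K] W.H Z} (hψ : ψ ∈ AOp W Y Z)
    (hφ : φ ∈ AOp W X Y) : ψ ∘ₗ φ ∈ AOp W X Z := by
  refine aop_ind (p := fun ψ => ψ ∘ₗ φ ∈ AOp W X Z) hψ (fun e ψ hψ => ?_) ?_ ?_
  · refine aop_ind (p := fun φ => ψ ∘ₗ φ ∈ AOp W X Z) hφ
      (fun d φ hφ => aop_of (KOp.comp hψ hφ)) ?_ ?_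
    · rw [LinearMap.comp_zero]; exact Submodule.zero_mem _
    · intro φ φ' h h'
      rw [LinearMap.comp_add]; exact Submodule.add_mem _ h h'
  · rw [LinearMap.zero_comp]; exact Submodule.zero_mem _
  · intro ψ ψ' h h'
    rw [LinearMap.add_comp]; exact Submodule.add_mem _ h h'

lemma aop_id (X : 𝒱.Obj) : LinearMap.id ∈ AOp W X X := aop_of (KOp.id X)

/-- Adjoints of the operators given by a sum of classes, and the classes themselves. -/
lemma aop_adj {φ : W.H Y →ₗ[W.K] W.H X} (hφ : φ ∈ AOp W Y X) :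
    ∃ ψ ∈ AOp W X Y, ∀ a b, W.tr Y (ψ a * b) = W.tr X (a * φ b) := by
  refine aop_ind (p := fun φ => ∃ ψ ∈ AOp W X Y, ∀ a b, W.tr Y (ψ a * b) = W.tr X (a * φ b))
    hφ (fun d φ hφ => ?_) ?_ ?_
  · obtain ⟨η, hη, rfl⟩ := mem_KOp_iff.1 hφ
    have h1 := span_map (swap X Y) hη
    obtain ⟨q, hq⟩ := span_gr' h1
    refine ⟨W.corr (W.map (swap X Y) η), aop_of (d := d + Y.dim - X.dim) ?_, fun a b => ?_⟩
    · rw [mem_KOp_iff]
      exact ⟨_, by rw [show (X.dim : ℤ) + (d + Y.dim - X.dim) = Y.dim + d by ring]; exact h1, rfl⟩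
    · rw [tr_corr_swap hq a b, Mot.map_swap_swap]
  · exact ⟨0, Submodule.zero_mem _, fun a b => by simp⟩
  · rintro φ φ' ⟨ψ, hψ, h⟩ ⟨ψ', hψ', h'⟩
    refine ⟨ψ + ψ', Submodule.add_mem _ hψ hψ', fun a b => ?_⟩
    rw [LinearMap.add_apply, LinearMap.add_apply, add_mul, mul_add, map_add, map_add, h, h']

/-! ### Algebraic classes of mixed codimensions -/

/-- The `K`-linear combinations of classes of cycles of all codimensions. -/
noncomputable def Alg (W : WeilCohomology.{u, v} ops) (X : 𝒱.Obj) : Submodule W.K (W.H X) :=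
  ⨆ j : ℤ, spanCycles W X j

lemma alg_of {j : ℤ} {x : W.H X} (hx : x ∈ spanCycles W X j) : x ∈ Alg W X :=
  Submodule.mem_iSup_of_mem j hx

lemma alg_comm {x : W.H X} (hx : x ∈ Alg W X) (a : W.H X) : x * a = a * x := by
  refine Submodule.iSup_induction _ (motive := fun x => x * a = a * x) hx
    (fun j x hx => span_comm hx a) (by rw [zero_mul, mul_zero]) ?_
  intro x y h h'
  rw [add_mul, mul_add, h, h']

lemma aop_iff {φ : W.H X →ₗ[W.K] W.H Y} :
    φ ∈ AOp W X Y ↔ ∃ γ ∈ Alg W (X.prod Y), W.corr γ = φ := by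
  constructor
  · intro hφ
    refine aop_ind (p := fun φ => ∃ γ ∈ Alg W (X.prod Y), W.corr γ = φ) hφ
      (fun d φ hφ => ?_) ⟨0, Submodule.zero_mem _, corr_zero W⟩ ?_
    · obtain ⟨γ, hγ, rfl⟩ := mem_KOp_iff.1 hφ
      exact ⟨γ, alg_of hγ, rfl⟩
    · rintro φ ψ ⟨γ, hγ, rfl⟩ ⟨δ, hδ, rfl⟩
      exact ⟨γ + δ, Submodule.add_mem _ hγ hδ, corr_add W _ _⟩
  · rintro ⟨γ, hγ, rfl⟩
    refine Submodule.iSup_induction _ (motive := fun γ => W.corr γ ∈ AOp W X Y) hγ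
      (fun j γ hγ => aop_of (d := j - X.dim) ?_) ?_ ?_
    · rw [mem_KOp_iff]
      exact ⟨γ, by rw [show (X.dim : ℤ) + (j - X.dim) = j by ring]; exact hγ, rfl⟩
    · rw [corr_zero]; exact Submodule.zero_mem _
    · intro γ δ h h'
      rw [corr_add]; exact Submodule.add_mem _ h h'

lemma tr_span_ne {i j : ℤ} (hij : i + j ≠ X.dim) {x y : W.H X} (hx : x ∈ spanCycles W X i)
    (hy : y ∈ spanCycles W X j) : W.tr X (x * y) = 0 := by
  by_cases hi : 0 ≤ i
  · by_cases hj : 0 ≤ j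
    · lift i to ℕ using hi
      lift j to ℕ using hj
      exact W.tr_eq_zero (W.mul_mem (span_gr hx) (span_gr hy)) (by omega)
    · rw [span_neg (by omega) hy, mul_zero, map_zero]
  · rw [span_neg (by omega) hx, zero_mul, map_zero]

/-- Decomposition into homogeneous components. -/
lemma alg_decomp {x : W.H X} (hx : x ∈ Alg W X) :
    ∃ (s : Finset ℤ) (f : ℤ → W.H X), (∀ j, f j ∈ spanCycles W X j) ∧ x = ∑ j ∈ s, f j := by
  classical
  refine Submodule.iSup_induction _ (motive := fun x => ∃ (s : Finset ℤ) (f : ℤ → W.H X),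
    (∀ j, f j ∈ spanCycles W X j) ∧ x = ∑ j ∈ s, f j) hx ?_ ?_ ?_
  · intro j x hx
    refine ⟨{j}, fun i => if i = j then x else 0, fun i => ?_, ?_⟩
    · by_cases h : i = j
      · subst h; simpa using hx
      · simp [h]
    · simp
  · exact ⟨∅, fun _ => 0, fun _ => Submodule.zero_mem _, by simp⟩
  · rintro x y ⟨s, f, hf, rfl⟩ ⟨t, g, hg, rfl⟩
    refine ⟨s ∪ t, fun j => (if j ∈ s then f j else 0) + (if j ∈ t then g j else 0),
      fun j => Submodule.add_mem _ ?_ ?_, ?_⟩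
    · split_ifs
      · exact hf j
      · exact Submodule.zero_mem _
    · split_ifs
      · exact hg j
      · exact Submodule.zero_mem _
    · rw [Finset.sum_add_distrib]
      congr 1
      · rw [← Finset.sum_filter]
        apply Finset.sum_congr _ fun _ _ => rfl
        ext j; simp
      · rw [← Finset.sum_filter]
        apply Finset.sum_congr _ fun _ _ => rfl
        ext j; simp

lemma num_comp {s : Finset ℤ} {f : ℤ → W.H X} (hf : ∀ j, f j ∈ spanCycles W X j)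
    (hn : NumTriv W X (∑ j ∈ s, f j)) {i : ℤ} (hi : i ∈ s) : NumTriv W X (f i) := by
  intro j g hg
  by_cases hij : i + j = X.dim
  · have h1 := hn j g hg
    rw [Finset.sum_mul, map_sum, Finset.sum_eq_single i] at h1
    · exact h1
    · intro l _ hl
      exact tr_span_ne (by omega) (hf l) hg
    · intro h; exact absurd hi h
  · exact tr_span_ne hij (hf i) hg

lemma alg_zero (hD : HomEqNum W X) {x : W.H X} (hx : x ∈ Alg W X) (hn : NumTriv W X x) :
    x = 0 := by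
  obtain ⟨s, f, hf, rfl⟩ := alg_decomp hx
  apply Finset.sum_eq_zero
  intro j hj
  exact zero_of_homEqNum hD (hf j) (num_comp hf hn hj)

/-- Values of a numerically trivial sum of algebraic classes. -/
lemma alg_value {𝒳 : Set 𝒱.Obj} (hX : X ∈ 𝒳) {γ : W.H (X.prod Y)} (hγ : γ ∈ Alg W (X.prod Y))
    (hn : NumTriv W _ γ) (x : W.H X) : W.corr γ x ∈ null W 𝒳 Y := by
  obtain ⟨s, f, hf, rfl⟩ := alg_decomp hγ
  have h1 : W.corr (∑ j ∈ s, f j) x = ∑ j ∈ s, W.corr (f j) x := by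
    rw [corr_apply, Finset.sum_mul, map_sum]
    rfl
  rw [h1]
  exact Submodule.sum_mem _ fun j hj => null_gen hX (hf j) (num_comp hf hn hj) x

/-! ### The algebra of correspondences of one variety -/

/-- The algebra of the algebraic correspondences of `X` of all degrees. -/
noncomputable def EAlg (W : WeilCohomology.{u, v} ops) (X : 𝒱.Obj) :
    Subalgebra W.K (Module.End W.K (W.H X)) where
  carrier := {T | T ∈ AOp W X X}
  mul_mem' := fun {_ _} ha hb => aop_comp ha hb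
  add_mem' := fun {a b} ha hb => (AOp W X X).add_mem ha hb
  algebraMap_mem' := fun r => by
    have h : (algebraMap W.K (Module.End W.K (W.H X))) r = r • LinearMap.id := by
      apply LinearMap.ext
      intro x
      rw [Module.algebraMap_end_apply, LinearMap.smul_apply, LinearMap.id_apply]
    change (algebraMap W.K (Module.End W.K (W.H X))) r ∈ AOp W X X
    rw [h]
    exact Submodule.smul_mem _ _ (aop_id X)

lemma mem_EAlg {T : Module.End W.K (W.H X)} : T ∈ EAlg W X ↔ T ∈ AOp W X X := Iff.rfl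

lemma par_aop {T : Module.End W.K (W.H X)} (hT : T ∈ EAlg W X) :
    Commute (par (W.isInternal X)) T := by
  refine aop_ind (p := fun T => Commute (par (W.isInternal X)) (T : Module.End W.K (W.H X)))
    (mem_EAlg.1 hT) (fun d φ hφ => ?_) (Commute.zero_right _) (fun _ _ h h' => h.add_right h')
  exact IsHom.par_comm (W.isInternal X) (d := d) (KOp.isHom hφ)

lemma nondeg_aop (hD : HomEqNum W (X.prod X)) {T : Module.End W.K (W.H X)} (hT : T ∈ EAlg W X)
    (h : ∀ S ∈ EAlg W X, LinearMap.trace W.K (W.H X) (par (W.isInternal X) * (S * T)) = 0) :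
    T = 0 := by
  obtain ⟨γ, hγ, rfl⟩ := aop_iff.1 (mem_EAlg.1 hT)
  have h0 : γ = 0 := by
    apply alg_zero hD hγ
    intro j g hg
    have hg' : g ∈ Alg W (X.prod X) := alg_of hg
    have h1 := span_map (swap X X) hg
    obtain ⟨q, hq⟩ := span_gr' h1
    rw [alg_comm hγ, ← tr_swap (g * γ), map_mul (W.map (swap X X)), tr_mul_eq_trace hq,
      Mot.map_swap_swap, mul_assoc]
    exact h _ (aop_iff.2 ⟨_, alg_of h1, rfl⟩)
  rw [h0, corr_zero]

/-- Regularity of correspondences to arbitrary varieties. -/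
lemma exists_regular (hD : HomEqNum W (X.prod X)) {c : W.H X →ₗ[W.K] W.H Y}
    (hc : c ∈ AOp W X Y) :
    ∃ δ₀ ∈ AOp W Y X, ∀ δ ∈ AOp W Y X, δ ∘ₗ (c - c ∘ₗ δ₀ ∘ₗ c) = 0 := by
  let J : Ideal (EAlg W X) :=
    { carrier := {T | ∃ δ ∈ AOp W Y X, (T : Module.End W.K (W.H X)) = δ ∘ₗ c}
      add_mem' := by
        rintro S T ⟨δ, hδ, h⟩ ⟨δ', hδ', h'⟩
        exact ⟨δ + δ', Submodule.add_mem _ hδ hδ', by
          rw [LinearMap.add_comp, ← h, ← h']; rfl⟩
      zero_mem' := ⟨0, Submodule.zero_mem _, by rw [LinearMap.zero_comp]; rfl⟩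
      smul_mem' := by
        rintro S T ⟨δ, hδ, h⟩
        exact ⟨(S : Module.End W.K (W.H X)) ∘ₗ δ, aop_comp (mem_EAlg.1 S.2) hδ, by
          rw [LinearMap.comp_assoc, ← h]; rfl⟩ }
  obtain ⟨f, ⟨δ₀, hδ₀, hf⟩, hJ⟩ := exists_right_identity (EAlg W X) (par (W.isInternal X))
    (fun T hT => par_aop hT) (fun T hT h => nondeg_aop hD hT h) J
  refine ⟨δ₀, hδ₀, fun δ hδ => ?_⟩
  have hm : δ ∘ₗ c ∈ EAlg W X := aop_comp hδ hc
  have h1 := hJ ⟨δ ∘ₗ c, hm⟩ ⟨δ, hδ, rfl⟩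
  have h2 : (δ ∘ₗ c) * (f : Module.End W.K (W.H X)) = δ ∘ₗ c :=
    congrArg (fun x : EAlg W X => (x : Module.End W.K (W.H X))) h1
  rw [hf] at h2
  rw [LinearMap.comp_sub, sub_eq_zero]
  exact h2.symm

/-- A correspondence killed by all correspondences in the other direction. -/
lemma numTriv_of_killed {γ : W.H (X.prod Y)} (hγ : γ ∈ Alg W (X.prod Y))
    (h : ∀ δ ∈ AOp W Y X, δ ∘ₗ W.corr γ = 0) : NumTriv W _ γ := by
  intro j g hg
  rw [alg_comm hγ]
  conv_lhs => rw [kunneth_sum γ]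
  rw [Finset.mul_sum, map_sum]
  apply Finset.sum_eq_zero
  intro l _
  rw [← mul_assoc, ← W.tr_push, ← corr_apply]
  set b := Module.finBasis W.K (W.H X) l
  obtain ⟨δ, hδ, -, hadj⟩ := adj_num hg
  rw [hadj]
  obtain ⟨a, ha⟩ := exists_dual ((Module.finBasis W.K (W.H X)).coord l)
  rw [ha, sl_mulLeft, ← alg_comm hγ, ← corr_apply]
  have h1 : W.corr δ ∘ₗ W.corr γ = 0 := h _ (aop_iff.2 ⟨δ, alg_of hδ, rfl⟩)
  have h2 : W.corr δ (W.corr γ a) = 0 := congrArg (fun F => F a) h1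
  rw [h2, mul_zero, map_zero]

/-! ### The subspace generated by a set of varieties -/

lemma gen_list {𝒳 : Set 𝒱.Obj} {y : W.H Y} (hy : y ∈ gen W 𝒳 Y) :
    ∃ l : List (Σ X : 𝒱.Obj, (W.H X →ₗ[W.K] W.H Y) × W.H X),
      (∀ t ∈ l, t.1 ∈ 𝒳 ∧ t.2.1 ∈ AOp W t.1 Y) ∧ (l.map fun t => t.2.1 t.2.2).sum = y := by
  induction hy using Submodule.span_induction with
  | mem y hy =>
    obtain ⟨X, hX, p, γ, hγ, x, rfl⟩ := hy
    refine ⟨[⟨X, W.corr γ, x⟩], ?_, by simp⟩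
    intro t ht
    rw [List.mem_singleton] at ht
    subst ht
    exact ⟨hX, aop_iff.2 ⟨γ, alg_of hγ, rfl⟩⟩
  | zero => exact ⟨[], by simp, by simp⟩
  | add y z _ _ hy hz =>
    obtain ⟨l, hl, rfl⟩ := hy
    obtain ⟨m, hm, rfl⟩ := hz
    refine ⟨l ++ m, fun t ht => ?_, by simp⟩
    rcases List.mem_append.1 ht with h | h
    · exact hl t h
    · exact hm t h
  | smul r y _ hy =>
    obtain ⟨l, hl, rfl⟩ := hy
    refine ⟨l.map fun t => ⟨t.1, r • t.2.1, t.2.2⟩, fun t ht => ?_, ?_⟩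
    · obtain ⟨t', ht', rfl⟩ := List.mem_map.1 ht
      exact ⟨(hl t' ht').1, Submodule.smul_mem _ _ (hl t' ht').2⟩
    · rw [List.map_map, List.smul_sum, List.map_map]
      rfl

lemma gen_mem {𝒳 : Set 𝒱.Obj} (hX : X ∈ 𝒳) {φ : W.H X →ₗ[W.K] W.H Y} (hφ : φ ∈ AOp W X Y)
    (x : W.H X) : φ x ∈ gen W 𝒳 Y := by
  refine aop_ind (p := fun φ => φ x ∈ gen W 𝒳 Y) hφ (fun d φ hφ => ?_) ?_ ?_
  · obtain ⟨γ, hγ, rfl⟩ := mem_KOp_iff.1 hφ
    by_cases h : 0 ≤ (X.dim : ℤ) + d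
    · obtain ⟨p, hp⟩ := Int.eq_ofNat_of_zero_le h
      rw [hp] at hγ
      exact Submodule.subset_span ⟨X, hX, p, γ, hγ, x, rfl⟩
    · rw [span_neg (by omega) hγ, corr_zero, LinearMap.zero_apply]
      exact Submodule.zero_mem _
  · exact Submodule.zero_mem _
  · intro φ ψ h h'
    exact Submodule.add_mem _ h h'

lemma kill_of_perp {𝒳 : Set 𝒱.Obj} (hX : X ∈ 𝒳) {y : W.H Y}
    (hy : ∀ a ∈ gen W 𝒳 Y, W.tr Y (a * y) = 0) {δ : W.H Y →ₗ[W.K] W.H X}
    (hδ : δ ∈ AOp W Y X) : δ y = 0 := by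
  obtain ⟨ψ, hψ, h⟩ := aop_adj hδ
  by_contra hne
  obtain ⟨f, hf⟩ := Module.Projective.exists_dual_eq_one W.K hne
  obtain ⟨a, rfl⟩ := exists_dual f
  rw [LinearMap.comp_apply, LinearMap.mulLeft_apply, ← h, hy _ (gen_mem hX hψ a)] at hf
  exact zero_ne_one hf

lemma perp_null {𝒳 : Set 𝒱.Obj} (h𝒳 : ∀ X ∈ 𝒳, ∀ X' ∈ 𝒳, HomEqNum W (X.prod X')) {b : W.H Y}
    (hb : b ∈ null W 𝒳 Y) {a : W.H Y} (ha : a ∈ gen W 𝒳 Y) : W.tr Y (a * b) = 0 := by
  induction ha using Submodule.span_induction with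
  | mem a ha =>
    obtain ⟨X, hX, p, γ, hγ, x, rfl⟩ := ha
    exact orth h𝒳 hX hγ x hb
  | zero => rw [zero_mul, map_zero]
  | add a a' _ _ h h' => rw [add_mul, map_add, h, h', add_zero]
  | smul c a _ h => rw [smul_mul_assoc, map_smul, h, smul_zero]

lemma mem_null_of_list {𝒳 : Set 𝒱.Obj} (h𝒳 : ∀ X ∈ 𝒳, ∀ X' ∈ 𝒳, HomEqNum W (X.prod X')) :
    ∀ (n : ℕ) (l : List (Σ X : 𝒱.Obj, (W.H X →ₗ[W.K] W.H Y) × W.H X)), l.length = n →
      (∀ t ∈ l, t.1 ∈ 𝒳 ∧ t.2.1 ∈ AOp W t.1 Y) →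
      (∀ a ∈ gen W 𝒳 Y, W.tr Y (a * (l.map fun t => t.2.1 t.2.2).sum) = 0) →
      (l.map fun t => t.2.1 t.2.2).sum ∈ null W 𝒳 Y := by
  intro n
  induction n with
  | zero =>
    intro l hl _ _
    rw [List.length_eq_zero_iff.1 hl]
    exact Submodule.zero_mem _
  | succ n ih =>
    intro l hl hmem hperp
    obtain ⟨t, l', rfl⟩ := List.exists_cons_of_length_eq_add_one hl
    obtain ⟨X, c, x⟩ := t
    obtain ⟨hX, hc⟩ := hmem _ List.mem_cons_self
    change X ∈ 𝒳 at hX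
    change c ∈ AOp W X Y at hc
    obtain ⟨δ₀, hδ₀, hreg⟩ := exists_regular (h𝒳 X hX X hX) hc
    set y := (((⟨X, c, x⟩ : Σ X : 𝒱.Obj, (W.H X →ₗ[W.K] W.H Y) × W.H X) :: l').map
      fun t => t.2.1 t.2.2).sum with hy
    have hkill : δ₀ y = 0 := kill_of_perp hX hperp hδ₀
    -- the first term
    have hν : (c - c ∘ₗ δ₀ ∘ₗ c) ∈ AOp W X Y :=
      Submodule.sub_mem _ hc (aop_comp hc (aop_comp hδ₀ hc))
    obtain ⟨γ, hγ, hγν⟩ := aop_iff.1 hν
    have hn : NumTriv W _ γ := numTriv_of_killed hγ fun δ hδ => by rw [hγν]; exact hreg δ hδ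
    have h1 : (c - c ∘ₗ δ₀ ∘ₗ c) x ∈ null W 𝒳 Y := by
      rw [← hγν]
      exact alg_value hX hγ hn x
    -- the other terms
    set p : W.H Y →ₗ[W.K] W.H Y := LinearMap.id - c ∘ₗ δ₀ with hp
    have hpm : p ∈ AOp W Y Y := Submodule.sub_mem _ (aop_id Y) (aop_comp hc hδ₀)
    set l'' : List (Σ X : 𝒱.Obj, (W.H X →ₗ[W.K] W.H Y) × W.H X) :=
      l'.map fun t => ⟨t.1, p ∘ₗ t.2.1, t.2.2⟩ with hl''
    have hsum : (l''.map fun t => t.2.1 t.2.2).sum = y - (c - c ∘ₗ δ₀ ∘ₗ c) x := by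
      have e1 : (l''.map fun t => t.2.1 t.2.2).sum = p (l'.map fun t => t.2.1 t.2.2).sum := by
        rw [hl'', List.map_map, map_list_sum, List.map_map]
        rfl
      have e2 : (l'.map fun t => t.2.1 t.2.2).sum = y - c x := by
        rw [hy, List.map_cons, List.sum_cons]
        abel
      have e3 : p y = y := by
        rw [hp, LinearMap.sub_apply, LinearMap.id_apply, LinearMap.comp_apply, hkill, map_zero,
          sub_zero]
      rw [e1, e2, map_sub, e3]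
      congr 1
    have h2 : (l''.map fun t => t.2.1 t.2.2).sum ∈ null W 𝒳 Y := by
      apply ih
      · rw [hl'', List.length_map]
        simpa using hl
      · intro t ht
        obtain ⟨t', ht', rfl⟩ := List.mem_map.1 ht
        obtain ⟨h3, h4⟩ := hmem t' (List.mem_cons_of_mem _ ht')
        exact ⟨h3, aop_comp hpm h4⟩
      · intro a ha
        rw [hsum, mul_sub, map_sub, hperp a ha, perp_null h𝒳 h1 ha, sub_zero]
    rw [hsum] at h2
    have h5 := Submodule.add_mem _ h2 h1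
    rwa [sub_add_cancel] at h5

/-- The null part is the radical of the form on the subspace generated by `𝒳`. -/
theorem rad_eq_null {𝒳 : Set 𝒱.Obj} (h𝒳 : ∀ X ∈ 𝒳, ∀ X' ∈ 𝒳, HomEqNum W (X.prod X'))
    (Y : 𝒱.Obj) : rad (W.tr Y) (gen W 𝒳 Y) = null W 𝒳 Y := by
  apply le_antisymm
  · rintro y ⟨hy, hperp⟩
    obtain ⟨l, hl, rfl⟩ := gen_list hy
    exact mem_null_of_list h𝒳 l.length l rfl hl hperp
  · intro y hy
    refine ⟨?_, fun a ha => perp_null h𝒳 hy ha⟩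
    refine (null_le (M := gen W 𝒳 Y) fun X hX p γ hγ _ x => ?_) hy
    exact Submodule.subset_span ⟨X, hX, p, γ, hγ, x, rfl⟩

end Run7.h43.TF
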